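import Pool.Agent.L0h32.UY.Stm

/-!
# Project UY: RNK, the rank of the matrix of the relation `¬ G ⊆ H`
-/

set_option autoImplicit false
set_option linter.all false

namespace Pool.Agent.L0h90.UYR

open Pool.Agent.L0h32.UY

theorem t_RNK : S_RNK := by
  classical
  intro T Λ _ _ a b hab huniq
  letI := Fintype.ofFinite T
  letI := Fintype.ofFinite Λ
  letI := Fintype.ofFinite (Set T)
  have hid : ∀ G H : Set T, (if G ⊆ H then (1 : ℚ) else 0) =
      1 - ∑ l, (if a G l then (1 : ℚ) else 0) * (if b l H then 1 else 0) := by
    intro G H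
    by_cases hGH : G ⊆ H
    · rw [if_pos hGH, Finset.sum_eq_zero, sub_zero]
      intro l _
      by_cases h1 : a G l
      · have h2 : ¬ b l H := fun h2 => ((hab G H).1 ⟨l, h1, h2⟩) hGH
        rw [if_neg h2, mul_zero]
      · rw [if_neg h1, zero_mul]
    · rw [if_neg hGH]
      obtain ⟨l, h1, h2⟩ := (hab G H).2 hGH
      rw [Finset.sum_eq_single l]
      · rw [if_pos h1, if_pos h2]; norm_num
      · intro l' _ hne
        by_cases h3 : a G l'
        · have h4 : ¬ b l' H := fun h4 => hne (huniq G H l' l h3 h4 h1 h2)
          rw [if_neg h4, mul_zero]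
        · rw [if_neg h3, zero_mul]
      · intro h3
        exact absurd (Finset.mem_univ l) h3
  let φ : (Set T → ℚ) →ₗ[ℚ] (ℚ × (Λ → ℚ)) :=
    { toFun := fun v => (∑ H, v H, fun l => ∑ H, (if b l H then (1 : ℚ) else 0) * v H)
      map_add' := by
        intro v w
        refine Prod.ext ?_ ?_
        · show ∑ H, (v + w) H = ∑ H, v H + ∑ H, w H
          rw [← Finset.sum_add_distrib]; rfl
        · funext l
          show ∑ H, (if b l H then (1 : ℚ) else 0) * (v + w) H =
            ∑ H, (if b l H then (1 : ℚ) else 0) * v H + ∑ H, (if b l H then (1 : ℚ) else 0) * w H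
          rw [← Finset.sum_add_distrib]
          refine Finset.sum_congr rfl fun H _ => ?_
          rw [Pi.add_apply, mul_add]
      map_smul' := by
        intro c v
        refine Prod.ext ?_ ?_
        · show ∑ H, (c • v) H = c • ∑ H, v H
          rw [Finset.smul_sum]; rfl
        · funext l
          show ∑ H, (if b l H then (1 : ℚ) else 0) * (c • v) H =
            c • ∑ H, (if b l H then (1 : ℚ) else 0) * v H
          rw [Finset.smul_sum]
          refine Finset.sum_congr rfl fun H _ => ?_
          rw [Pi.smul_apply, smul_eq_mul, smul_eq_mul]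
          ring }
  have hinj : Function.Injective φ := by
    rw [injective_iff_map_eq_zero]
    intro v hv
    have h1 : ∑ H, v H = 0 := congrArg Prod.fst hv
    have h2 : ∀ l, ∑ H, (if b l H then (1 : ℚ) else 0) * v H = 0 := fun l =>
      congrFun (congrArg Prod.snd hv) l
    have h3 : ∀ G : Set T, ∑ H, (if G ⊆ H then (1 : ℚ) else 0) * v H = 0 := by
      intro G
      have e1 : ∑ H, (if G ⊆ H then (1 : ℚ) else 0) * v H =
          ∑ H, (v H - ∑ l, (if a G l then (1 : ℚ) else 0) * ((if b l H then 1 else 0) * v H)) := by
        refine Finset.sum_congr rfl fun H _ => ?_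
        rw [hid, sub_mul, one_mul, Finset.sum_mul]
        congr 1
        exact Finset.sum_congr rfl fun l _ => by ring
      rw [e1, Finset.sum_sub_distrib, h1, Finset.sum_comm, zero_sub, neg_eq_zero]
      refine Finset.sum_eq_zero fun l _ => ?_
      rw [← Finset.mul_sum, h2, mul_zero]
    funext G
    show v G = 0
    refine WellFoundedGT.induction (motive := fun G : Set T => v G = 0) G ?_
    intro G ih
    have h4 := h3 G
    rw [Finset.sum_eq_single G] at h4
    · rw [if_pos (Set.Subset.refl G), one_mul] at h4
      exact h4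
    · intro H _ hne
      by_cases hGH : G ⊆ H
      · rw [ih H (lt_of_le_of_ne hGH (Ne.symm hne)), mul_zero]
      · rw [if_neg hGH, zero_mul]
    · intro h5
      exact absurd (Finset.mem_univ G) h5
  have h5 := LinearMap.finrank_le_finrank_of_injective hinj
  rw [Module.finrank_prod, Module.finrank_self, Module.finrank_fintype_fun_eq_card,
    Module.finrank_fintype_fun_eq_card] at h5
  rw [Nat.card_eq_fintype_card, Nat.card_eq_fintype_card]
  omega

end Pool.Agent.L0h90.UYR
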